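import Pool.Agent.V1173.Fock.Dist

/-!
# MP_09e892_an : Lipschitz-type characterisation of Fock spaces by an induced distance
-/

open MeasureTheory Metric Set
open scoped ENNReal

namespace Pool.Agent.Results.MP_09e892_an.FockLipschitz

open Pool.Agent.V1173.Fock

/-- `|z|² = |z₁|² + ⋯ + |zₙ|²`. -/
noncomputable def sqNorm {n : ℕ} (z : Fin n → ℂ) : ℝ := ∑ i, ‖z i‖ ^ 2

/-- `z ū = z₁ ū₁ + ⋯ + zₙ ūₙ`. -/
noncomputable def herm {n : ℕ} (z u : Fin n → ℂ) : ℂ := ∑ i, z i * (starRingEnd ℂ) (u i)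

/-- The Gaussian measure `dλ_β(u) = (β/π)^n e^{-β|u|²} dv(u)`. -/
noncomputable def gaussMeasure (n : ℕ) (β : ℝ) : Measure (Fin n → ℂ) :=
  volume.withDensity fun u => ENNReal.ofReal ((β / Real.pi) ^ n * Real.exp (-(β * sqNorm u)))

/-- The induced distance `d_α`. -/
noncomputable def inducedDist {n : ℕ} (α : ℝ) (z w : Fin n → ℂ) : ℝ :=
  ∫ u, ‖Complex.exp (α * herm z u) - Complex.exp (α * herm w u)‖ ∂(gaussMeasure n (α / 2))

/-- `f` lies in the Fock space `F^p_α`: it is entire and `f(z) e^{-α|z|²/2}` is in `L^p(dv)`. -/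
def InFock {n : ℕ} (α : ℝ) (p : ℝ≥0∞) (f : (Fin n → ℂ) → ℂ) : Prop :=
  Differentiable ℂ f ∧
    MemLp (fun z => f z * (Real.exp (-(α * sqNorm z / 2)) : ℂ)) p volume

/-- Condition (L). -/
def CondL {n : ℕ} (α : ℝ) (p : ℝ≥0∞) (f : (Fin n → ℂ) → ℂ) : Prop :=
  ∃ g : (Fin n → ℂ) → ℝ, (∀ z, 0 ≤ g z) ∧ Continuous g ∧ MemLp g p volume ∧
    ∀ z w, ‖f z - f w‖ ≤ inducedDist α z w * (g z + g w)

theorem sqNorm_eq {n : ℕ} (z : Fin n → ℂ) : sqNorm z = nsq z := rfl

theorem inducedDist_eq {n : ℕ} {α : ℝ} (hα : 0 < α) (z w : Fin n → ℂ) :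
    inducedDist α z w = dis α z w := by
  unfold inducedDist gaussMeasure
  have hc : Continuous (nsq (n := n)) := continuous_nsq
  rw [integral_withDensity_eq_integral_toReal_smul]
  · unfold dis
    refine integral_congr_ae (Filter.Eventually.of_forall fun u => ?_)
    simp only [smul_eq_mul]
    rw [ENNReal.toReal_ofReal (by positivity), mul_comm]
    rfl
  · have : Continuous fun u : Fin n → ℂ => (α / 2 / Real.pi) ^ n * Real.exp (-(α / 2 * nsq u)) := by
      fun_prop
    exact this.measurable.ennreal_ofReal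
  · exact Filter.Eventually.of_forall fun u => ENNReal.ofReal_lt_top

/-- local Lipschitz estimate -/
theorem local_lip {n : ℕ} (F : (Fin n → ℂ) → ℂ) (hF : Differentiable ℂ F) (w z : Fin n → ℂ)
    (M : ℝ) (hM : ∀ v, ‖v - w‖ ≤ 2 → ‖F v‖ ≤ M) (h : ‖z - w‖ ≤ 1) :
    ‖F z - F w‖ ≤ M * ‖z - w‖ := by
  rcases (norm_nonneg (z - w)).eq_or_lt with h0 | h0
  · have : z = w := by
      rw [← sub_eq_zero, ← norm_eq_zero, ← h0]
    rw [this]
    simp
  set d : ℝ := ‖z - w‖ with hd
  set s : Fin n → ℂ := ((d⁻¹ : ℝ) : ℂ) • (z - w) with hs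
  have hsn : ‖s‖ = 1 := by
    rw [hs, norm_smul, Complex.norm_real, Real.norm_eq_abs, abs_of_pos (by positivity), ← hd,
      inv_mul_cancel₀ h0.ne']
  have hds : (d : ℂ) • s = z - w := by
    rw [hs, smul_smul, ← Complex.ofReal_mul, mul_inv_cancel₀ h0.ne']
    simp
  have hdiff : Differentiable ℂ (fun l : ℂ => F (w + l • s)) := by
    apply hF.comp
    fun_prop
  have hmaps : MapsTo (fun l : ℂ => F (w + l • s)) (ball 0 2)
      (closedBall ((fun l : ℂ => F (w + l • s)) 0) (2 * M)) := by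
    intro l hl
    rw [mem_ball_zero_iff] at hl
    rw [mem_closedBall, dist_eq_norm]
    have h1 : ‖F (w + l • s)‖ ≤ M := by
      apply hM
      rw [add_sub_cancel_left, norm_smul, hsn, mul_one]
      exact hl.le
    have h2 : ‖F (w + (0 : ℂ) • s)‖ ≤ M := by
      apply hM
      simp
    have := norm_sub_le (F (w + l • s)) (F (w + (0 : ℂ) • s))
    simp only
    linarith
  have hdmem : (d : ℂ) ∈ ball (0 : ℂ) 2 := by
    rw [mem_ball_zero_iff, Complex.norm_real, Real.norm_eq_abs, abs_of_pos h0]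
    linarith
  have key := Complex.dist_le_div_mul_dist_of_mapsTo_ball (f := fun l : ℂ => F (w + l • s))
    hdiff.differentiableOn hmaps hdmem
  simp only [zero_smul, add_zero, hds] at key
  rw [dist_eq_norm, dist_zero_right, Complex.norm_real, Real.norm_eq_abs, abs_of_pos h0,
    add_sub_cancel] at key
  linarith

theorem result (n : ℕ) (α : ℝ) (hα : 0 < α) (p : ℝ≥0∞) (hp : p ≠ 0)
    (f : (Fin n → ℂ) → ℂ) (hf : InFock α p f) : CondL α p f := by
  obtain ⟨hd, hmem⟩ := hf
  -- the weighted modulus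
  set g₀ : (Fin n → ℂ) → ℝ := V α 0 f with hg₀
  have hg₀c : Continuous g₀ := continuous_V α 0 hd.continuous
  have hg₀n : ∀ z, 0 ≤ g₀ z := V_nonneg α 0 f
  have hg₀e : ∀ z, ‖f z‖ = g₀ z * Real.exp (α * nsq z / 2) := by
    intro z
    rw [hg₀]
    unfold V wgt
    rw [pow_zero, div_one, mul_assoc, ← Real.exp_add]
    simp
  have hmem₀ : MemLp g₀ p volume := by
    refine (hmem.norm).ae_eq (Filter.Eventually.of_forall fun z => ?_)
    rw [hg₀]
    unfold V wgt
    simp only [norm_mul, Complex.norm_real, Real.norm_eq_abs, Real.abs_exp, pow_zero, div_one]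
    rfl
  set g₁ : (Fin n → ℂ) → ℝ := locSup 2 g₀ with hg₁
  have hg₁c : Continuous g₁ := continuous_locSup hg₀c
  have hg₀₁ : ∀ v w, ‖v - w‖ ≤ 2 → g₀ v ≤ g₁ w := fun v w h => le_locSup hg₀c h
  have hg₁n : ∀ z, 0 ≤ g₁ z := fun z => (hg₀n z).trans (hg₀₁ z z (by simp))
  have hmem₁ : MemLp g₁ p volume := by
    by_cases hptop : p = ∞
    · subst hptop
      obtain ⟨M, hM⟩ := bound_of_memLp_top hα 0 hd hmem₀
      refine memLp_top_of_bound hg₁c.aestronglyMeasurable M (Filter.Eventually.of_forall fun z => ?_)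
      rw [Real.norm_eq_abs, abs_of_nonneg (hg₁n z)]
      obtain ⟨w, -, hw⟩ := exists_locSup (by norm_num : (0 : ℝ) ≤ 2) hg₀c z
      rw [hg₁, hw]
      exact hM w
    · have hp' : 0 < p.toReal := ENNReal.toReal_pos hp hptop
      rw [memLp_iff hp hptop hg₁c hg₁n]
      rw [memLp_iff hp hptop hg₀c hg₀n] at hmem₀
      obtain ⟨C, hC, h⟩ := lintegral_locSup (n := n) hp' hα 0 (by norm_num : (0 : ℝ) ≤ 2)
      exact (h f hd).trans_lt (ENNReal.mul_lt_top ENNReal.ofReal_lt_top hmem₀)
  obtain ⟨c, hc, hlow⟩ := dis_lower n hα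
  have hdis0 : ∀ z w : Fin n → ℂ, 0 ≤ dis α z w := fun z w =>
    integral_nonneg fun u => by unfold gdens; positivity
  set κ : ℝ := 1 - Real.exp (-(α / 2)) with hκ
  have hκ0 : 0 < κ := by
    rw [hκ, sub_pos, Real.exp_lt_one_iff]
    linarith
  set C : ℝ := 1 / (c * κ) + (Real.exp (2 * α * n) + 1) / c with hC
  have hC0 : 0 < C := by positivity
  refine ⟨fun z => C * g₁ z, fun z => mul_nonneg hC0.le (hg₁n z), by fun_prop,
    hmem₁.const_mul C, ?_⟩
  -- far case, ordered
  have hfar : ∀ z w : Fin n → ℂ, 1 ≤ ‖z - w‖ → nsq z ≤ nsq w →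
      ‖f z - f w‖ ≤ dis α z w * (1 / (c * κ) * (g₁ z + g₁ w)) := by
    intro z w hzw hN
    have h1 := (hlow z w).1
    have h2 : κ ≤ ‖Complex.exp (α * dot w (z - w)) - 1‖ := by
      have h21 : ‖Complex.exp (α * dot w (z - w))‖ ≤ Real.exp (-(α / 2)) := by
        rw [Complex.norm_exp, Complex.re_ofReal_mul, Real.exp_le_exp, dot_re_comm, dot_sub_re]
        have h211 := norm_sq_le_nsq (z - w)
        have h212 : 1 ≤ nsq (z - w) := by nlinarith
        nlinarith
      have h22 := norm_sub_norm_le (1 : ℂ) (Complex.exp (α * dot w (z - w)))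
      rw [norm_one, norm_sub_rev] at h22
      linarith
    have h3 : c * Real.exp (α * nsq w / 2) * κ ≤ dis α z w :=
      le_trans (by gcongr) h1
    have h4 : ‖f z - f w‖ ≤ Real.exp (α * nsq w / 2) * (g₀ z + g₀ w) := by
      refine (norm_sub_le _ _).trans ?_
      rw [hg₀e z, hg₀e w]
      have h41 : Real.exp (α * nsq z / 2) ≤ Real.exp (α * nsq w / 2) := by
        rw [Real.exp_le_exp]
        gcongr
      have h42 := hg₀n z
      calc g₀ z * Real.exp (α * nsq z / 2) + g₀ w * Real.exp (α * nsq w / 2)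
          ≤ g₀ z * Real.exp (α * nsq w / 2) + g₀ w * Real.exp (α * nsq w / 2) := by gcongr
        _ = _ := by ring
    have h5 : g₀ z + g₀ w ≤ g₁ z + g₁ w :=
      add_le_add (hg₀₁ z z (by simp)) (hg₀₁ w w (by simp))
    calc ‖f z - f w‖ ≤ Real.exp (α * nsq w / 2) * (g₁ z + g₁ w) := h4.trans (by gcongr)
      _ = (c * Real.exp (α * nsq w / 2) * κ) * (1 / (c * κ) * (g₁ z + g₁ w)) := by
          field_simp
      _ ≤ _ := by
          have h6 : 0 ≤ g₁ z + g₁ w := add_nonneg (hg₁n z) (hg₁n w)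
          gcongr
  -- near case
  have hnear : ∀ z w : Fin n → ℂ, ‖z - w‖ ≤ 1 →
      ‖f z - f w‖ ≤ dis α z w * ((Real.exp (2 * α * n) + 1) / c * g₁ w) := by
    intro z w hzw
    set F := nrm α f w with hF
    have hFd : Differentiable ℂ F := by
      rw [hF]
      unfold nrm
      have := differentiable_dot w w
      exact hd.mul (Complex.differentiable_exp.comp ((this.const_mul _).neg))
    have hFz : f z = Complex.exp (α * dot (z - w) w) * F z := by
      rw [hF]
      unfold nrm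
      rw [mul_comm, mul_assoc, ← Complex.exp_add]
      simp
    have hFw : F w = f w := by
      rw [hF]
      unfold nrm
      have : dot (w - w) w = 0 := by simp [dot]
      rw [this]
      simp
    have hFb : ∀ v, ‖v - w‖ ≤ 2 → ‖F v‖ ≤ g₁ w * (Real.exp (α * nsq w / 2) * Real.exp (2 * α * n)) := by
      intro v hv
      rw [hF, norm_nrm]
      have h1 : ‖f v‖ * Real.exp (-(α * nsq v / 2)) = g₀ v := by
        rw [hg₀]
        unfold V wgt
        rw [pow_zero, div_one]
      rw [h1]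
      have h2 : nsq (v - w) ≤ 4 * n := by
        refine (nsq_le _).trans ?_
        have : ‖v - w‖ ^ 2 ≤ 4 := by nlinarith [norm_nonneg (v - w)]
        nlinarith [(Nat.cast_nonneg n : (0 : ℝ) ≤ n)]
      have h3 : Real.exp (α * nsq (v - w) / 2) ≤ Real.exp (2 * α * n) := by
        rw [Real.exp_le_exp]
        nlinarith
      have h4 := hg₁n w
      have h5 := hg₀₁ v w hv
      gcongr
    have hlip := local_lip F hFd w z _ hFb hzw
    have h1 : f z - f w = Complex.exp (α * dot (z - w) w) * (F z - F w) +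
        (Complex.exp (α * dot (z - w) w) - 1) * f w := by
      rw [hFz, hFw]
      ring
    have h2 : ‖Complex.exp (α * dot (z - w) w)‖ * Real.exp (α * nsq w / 2) ≤
        Real.exp (α * nsq z / 2) := by
      rw [Complex.norm_exp, Complex.re_ofReal_mul, dot_sub_re, ← Real.exp_add, Real.exp_le_exp]
      have := nsq_nonneg (z - w)
      nlinarith
    have h3 : ‖Complex.exp (α * dot (z - w) w) * (F z - F w)‖ ≤
        dis α z w * (Real.exp (2 * α * n) / c * g₁ w) := by
      rw [norm_mul]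
      have h31 : c * Real.exp (α * nsq z / 2) * ‖z - w‖ ≤ dis α z w := by
        rw [dis_symm, norm_sub_rev]
        exact (hlow w z).2 (by rwa [norm_sub_rev])
      have h32 := hg₁n w
      calc ‖Complex.exp (α * dot (z - w) w)‖ * ‖F z - F w‖
          ≤ ‖Complex.exp (α * dot (z - w) w)‖ *
            (g₁ w * (Real.exp (α * nsq w / 2) * Real.exp (2 * α * n)) * ‖z - w‖) := by gcongr
        _ = (‖Complex.exp (α * dot (z - w) w)‖ * Real.exp (α * nsq w / 2)) *
            (g₁ w * Real.exp (2 * α * n) * ‖z - w‖) := by ring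
        _ ≤ Real.exp (α * nsq z / 2) * (g₁ w * Real.exp (2 * α * n) * ‖z - w‖) := by gcongr
        _ = (c * Real.exp (α * nsq z / 2) * ‖z - w‖) * (Real.exp (2 * α * n) / c * g₁ w) := by
            field_simp
        _ ≤ dis α z w * (Real.exp (2 * α * n) / c * g₁ w) := by gcongr
    have h4 : ‖(Complex.exp (α * dot (z - w) w) - 1) * f w‖ ≤ dis α z w * (1 / c * g₁ w) := by
      rw [norm_mul, hg₀e w]
      have h41 := (hlow z w).1
      have h42 : ‖Complex.exp (α * dot w (z - w)) - 1‖ = ‖Complex.exp (α * dot (z - w) w) - 1‖ := by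
        rw [← RCLike.norm_conj (Complex.exp (α * dot w (z - w)) - 1), map_sub, map_one,
          ← Complex.exp_conj, map_mul, dot_conj, Complex.conj_ofReal]
      rw [h42] at h41
      have h43 := hg₀₁ w w (by simp)
      have h44 := hg₁n w
      calc ‖Complex.exp (α * dot (z - w) w) - 1‖ * (g₀ w * Real.exp (α * nsq w / 2))
          ≤ ‖Complex.exp (α * dot (z - w) w) - 1‖ * (g₁ w * Real.exp (α * nsq w / 2)) := by gcongr
        _ = (c * Real.exp (α * nsq w / 2) * ‖Complex.exp (α * dot (z - w) w) - 1‖) *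
            (1 / c * g₁ w) := by
            field_simp
        _ ≤ dis α z w * (1 / c * g₁ w) := by gcongr
    rw [h1]
    refine (norm_add_le _ _).trans ((add_le_add h3 h4).trans (le_of_eq ?_))
    ring
  intro z w
  rw [inducedDist_eq hα]
  have hd0 := hdis0 z w
  have hz0 := hg₁n z
  have hw0 := hg₁n w
  have hterm1 : 0 ≤ 1 / (c * κ) := by positivity
  have hterm2 : 0 ≤ (Real.exp (2 * α * n) + 1) / c := by positivity
  by_cases hzw : ‖z - w‖ ≤ 1
  · refine (hnear z w hzw).trans ?_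
    gcongr
    rw [hC]
    nlinarith [mul_nonneg hterm1 hz0, mul_nonneg hterm1 hw0, mul_nonneg hterm2 hz0]
  · push Not at hzw
    have hle : ‖f z - f w‖ ≤ dis α z w * (1 / (c * κ) * (g₁ z + g₁ w)) := by
      rcases le_total (nsq z) (nsq w) with hN | hN
      · exact hfar z w hzw.le hN
      · have := hfar w z (by rw [norm_sub_rev]; exact hzw.le) hN
        rw [norm_sub_rev, dis_symm, add_comm (g₁ w)] at this
        exact this
    refine hle.trans ?_
    gcongr
    rw [hC]
    nlinarith [mul_nonneg hterm2 hz0, mul_nonneg hterm2 hw0]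

end Pool.Agent.Results.MP_09e892_an.FockLipschitz
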